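import Pool.Agent.Work.MP_c5a777_ag.Five.Fin2

/-!
There is a unirational threefold over `ℂ` with a nonzero unramified Brauer class of order
five.

With `ω` a primitive fifth root of one, `e = ω + ω⁴`, `c = 5 e - 3`, `c' = -8 - 5 e` and
`h_k(x, y) = y² + x y - x³ + k (x y + y - x²)`, the field `L` is the function field of the
surface bundle
`(10 e + 5) λ⁵ = c t h_{c'}(x, y) - c' (t - 2) (1 - 2 t)⁴ h_c(x, y)`
over the `t`-line, and the class is the symbol `(t, h_c(x, y))_ω`.
-/

namespace Pool.Agent.Results.MP_c5a777_ag.FiveTorsion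

open Pool.Agent.Work.MP_c5a777_ag.Five

/-- For every primitive fifth root of one `ω` there is a field `L`, finitely generated and of
transcendence degree three over `ℂ`, which embeds over `ℂ` in the rational function field in
three variables (so a smooth projective model of `L` is a unirational, hence rationally
connected, threefold), and there are nonzero `a, b ∈ L` such that the class of the symbol
`(a, b)_ω` in `H²(L, μ₅)` is unramified and nonzero: its residue (the tame symbol, modulo
fifth powers of the residue field) is trivial at every discrete valuation ring of `L`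
containing `ℂ`, and the cyclic algebra `⟨U, V | U⁵ = a, V⁵ = b, V U = ω U V⟩` over `L` is not
split. -/
theorem result (ω : ℂ) (hω : IsPrimitiveRoot ω 5) :
    ∃ (L : Type) (_ : Field L) (_ : Algebra ℂ L),
      (∃ s : Finset L, IntermediateField.adjoin ℂ (s : Set L) = ⊤) ∧
      Algebra.trdeg ℂ L = 3 ∧
      Nonempty (L →ₐ[ℂ] FractionRing (MvPolynomial (Fin 3) ℂ)) ∧
      ∃ a b : L, a ≠ 0 ∧ b ≠ 0 ∧
        (∀ A : ValuationSubring L, (∀ z : ℂ, algebraMap ℂ L z ∈ A) →
          IsDiscreteValuationRing A → TameFifth A a b) ∧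
        ¬ ∃ U V : Matrix (Fin 5) (Fin 5) L,
          U ^ 5 = Matrix.scalar (Fin 5) a ∧ V ^ 5 = Matrix.scalar (Fin 5) b ∧
          V * U = algebraMap ℂ L ω • (U * V) := by
  have hw : ω ^ 4 + ω ^ 3 + ω ^ 2 + ω + 1 = 0 := by
    have := hω.geom_sum_eq_zero (by norm_num)
    simp only [Finset.sum_range_succ, Finset.sum_range_zero] at this
    linear_combination this
  exact ⟨LF ω, inferInstance, inferInstance, LF_fg ω, trdeg_LF ω hw, ⟨(LF ω).val⟩,
    lt ω, lf ω, lt_ne ω, lf_ne ω hw, fun A hA _ => unram ω hw A hA, nonsplit ω hw hω⟩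

end Pool.Agent.Results.MP_c5a777_ag.FiveTorsion
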