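import Pool.Agent.Work.MP_c5a777_ag.Sev.Main

/-!
There is a unirational threefold over `ℂ` with a nonzero unramified Brauer class of order
seven.

The field `L` is the function field of an explicit elliptic curve over `ℂ(u, r)`, and the class
is the symbol `(u, f)_ω`, where `f` has divisor `∑ σⁱ Q - 7 (0)` for a point `Q` of the curve
over `ℂ(u^(1/7), r)` with conjugates `σⁱ Q`.
-/

namespace Pool.Agent.Results.MP_c5a777_ag.SevenTorsion

open Pool.Agent.Work.MP_c5a777_ag.Sev

/-- For every primitive seventh root of one `ω` there is a field `L`, finitely generated and of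
transcendence degree three over `ℂ`, which embeds over `ℂ` in the rational function field in
three variables (so a smooth projective model of `L` is a unirational, hence rationally
connected, threefold), and there are nonzero `a, b ∈ L` such that the class of the symbol
`(a, b)_ω` in `H²(L, μ₇)` is unramified and nonzero: its residue (the tame symbol, modulo
seventh powers of the residue field) is trivial at every discrete valuation ring of `L`
containing `ℂ`, and the cyclic algebra `⟨U, V | U⁷ = a, V⁷ = b, V U = ω U V⟩` over `L` is not
split. -/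
theorem result (ω : ℂ) (hω : IsPrimitiveRoot ω 7) :
    ∃ (L : Type) (_ : Field L) (_ : Algebra ℂ L),
      (∃ s : Finset L, IntermediateField.adjoin ℂ (s : Set L) = ⊤) ∧
      Algebra.trdeg ℂ L = 3 ∧
      Nonempty (L →ₐ[ℂ] FractionRing (MvPolynomial (Fin 3) ℂ)) ∧
      ∃ a b : L, a ≠ 0 ∧ b ≠ 0 ∧
        (∀ A : ValuationSubring L, (∀ z : ℂ, algebraMap ℂ L z ∈ A) →
          IsDiscreteValuationRing A → TameSeventh A a b) ∧
        ¬ ∃ U V : Matrix (Fin 7) (Fin 7) L,
          U ^ 7 = Matrix.scalar (Fin 7) a ∧ V ^ 7 = Matrix.scalar (Fin 7) b ∧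
          V * U = algebraMap ℂ L ω • (U * V) :=
  seven ω hω

end Pool.Agent.Results.MP_c5a777_ag.SevenTorsion
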