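import Pool.Agent.Work.MP_c5a777_ag.Final

/-!
There is a unirational threefold over `ℂ` with a nonzero unramified Brauer class of order
three.

The field `L` is the function field of the diagonal cubic surface bundle
`x ^ 3 + y ^ 3 / t + t z ^ 3 / (t - 1) + (t - 1) = 0` over the `t`-line, and the class is the
symbol `(t, f)_ω` with `f = t z ^ 3 / (t - 1) - ω ^ 2 (t - 1) - (1 - ω) y z`.
-/

namespace Pool.Agent.Results.MP_c5a777_ag.ThreeTorsion

open Pool.Agent.Work.MP_c5a777_ag

/-- For every primitive cube root of one `ω` there is a field `L`, finitely generated and of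
transcendence degree three over `ℂ`, which embeds over `ℂ` in the rational function field in
three variables (so a smooth projective model of `L` is a unirational, hence rationally
connected, threefold), and there are nonzero `a, b ∈ L` such that the class of the symbol
`(a, b)_ω` in `H²(L, μ₃)` is unramified and nonzero: its residue (the tame symbol, modulo
cubes of the residue field) is trivial at every discrete valuation ring of `L` containing `ℂ`,
and the cyclic algebra `⟨U, V | U³ = a, V³ = b, V U = ω U V⟩` over `L` is not split. -/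
theorem result (ω : ℂ) (hω : IsPrimitiveRoot ω 3) :
    ∃ (L : Type) (_ : Field L) (_ : Algebra ℂ L),
      (∃ s : Finset L, IntermediateField.adjoin ℂ (s : Set L) = ⊤) ∧
      Algebra.trdeg ℂ L = 3 ∧
      Nonempty (L →ₐ[ℂ] FractionRing (MvPolynomial (Fin 3) ℂ)) ∧
      ∃ a b : L, a ≠ 0 ∧ b ≠ 0 ∧
        (∀ A : ValuationSubring L, (∀ z : ℂ, algebraMap ℂ L z ∈ A) →
          IsDiscreteValuationRing A → TameCube A a b) ∧
        ¬ ∃ U V : Matrix (Fin 3) (Fin 3) L,
          U ^ 3 = Matrix.scalar (Fin 3) a ∧ V ^ 3 = Matrix.scalar (Fin 3) b ∧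
          V * U = algebraMap ℂ L ω • (U * V) := by
  have hw : ω ^ 2 + ω + 1 = 0 := by
    have := hω.geom_sum_eq_zero (by norm_num)
    simp only [Finset.sum_range_succ, Finset.sum_range_zero] at this
    linear_combination this
  exact ⟨LL ω, inferInstance, inferInstance, LL_fg ω, trdeg_LL ω hw, ⟨embL ω⟩,
    lt ω, lf ω, lt_ne ω, lf_ne ω hw, fun A hA _ => unram ω hw A hA, nonsplit ω hw⟩

end Pool.Agent.Results.MP_c5a777_ag.ThreeTorsion
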